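import Mathlib
import Pool.Agent.Lib.H61I.Ehr

set_option autoImplicit false

/-!
# MP_53c0b7_co, Q1 (Wang): a barycentric-ratio volume bound for lattice convex bodies

The theorem `result` proves Q1, with its equality case (and so Ehrhart's volume conjecture, the case
of barycenter `0`), in the words of the problem file: Euclidean space, Euclidean norm, Lebesgue
volume, the integer lattice.
-/

namespace Pool.Agent.Results.MP_53c0b7_co.BarycentricVolumeBound

open MeasureTheory Set
open scoped Pointwise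

variable {n : ℕ}

/-- A convex body of `R^n`: a compact convex set with nonempty interior. -/
def IsConvexBody (K : Set (EuclideanSpace ℝ (Fin n))) : Prop :=
  IsCompact K ∧ Convex ℝ K ∧ (interior K).Nonempty

/-- A point of the lattice `Z^n`: all its coordinates are integers. -/
def IsLatticePoint (x : EuclideanSpace ℝ (Fin n)) : Prop :=
  ∀ i, ∃ z : ℤ, x i = (z : ℝ)

/-- The origin is the only lattice point in the interior of `K`. -/
def OnlyInteriorLatticePoint (K : Set (EuclideanSpace ℝ (Fin n))) : Prop :=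
  ∀ x : EuclideanSpace ℝ (Fin n), (x ∈ interior K ∧ IsLatticePoint x) ↔ x = 0

/-- The barycenter (centroid) of `K`: the integral of `x` over `K` divided by the volume. -/
noncomputable def barycenter (K : Set (EuclideanSpace ℝ (Fin n))) : EuclideanSpace ℝ (Fin n) :=
  (volume.real K)⁻¹ • ∫ x in K, x

/-- `x` is a point where the ray from the barycenter `b` through `0`, that is
`{b - t b : t ≥ 0}`, meets the boundary of `K`. -/
def IsExitPoint (K : Set (EuclideanSpace ℝ (Fin n))) (x : EuclideanSpace ℝ (Fin n)) : Prop :=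
  x ∈ frontier K ∧ ∃ t : ℝ, 0 ≤ t ∧ x = barycenter K - t • barycenter K

open Classical in
/-- The ratio invariant `R(K)`: it is `1` if the barycenter `b` is `0`, and otherwise
`‖x‖ / ‖x - b‖` for the exit point `x` (which exists and is unique, see `result`). -/
noncomputable def ratio (K : Set (EuclideanSpace ℝ (Fin n))) : ℝ :=
  if h : barycenter K ≠ 0 ∧ ∃ x, IsExitPoint K x then
    ‖h.2.choose‖ / ‖h.2.choose - barycenter K‖
  else 1

/-- The standard unimodular simplex `conv(0, e_1, ..., e_n)`. -/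
noncomputable def unimodularSimplex (n : ℕ) : Set (EuclideanSpace ℝ (Fin n)) :=
  convexHull ℝ (insert 0 (range fun i : Fin n => EuclideanSpace.single i (1 : ℝ)))

/-- The map `x ↦ U x + v` for an integer matrix `U` and an integer vector `v`. -/
noncomputable def affineMap (U : Matrix (Fin n) (Fin n) ℤ) (v : Fin n → ℤ)
    (x : EuclideanSpace ℝ (Fin n)) : EuclideanSpace ℝ (Fin n) :=
  WithLp.toLp 2 fun i => ∑ j, (U i j : ℝ) * x j + (v i : ℝ)

/-- `L` is the image of `K` under a map `x ↦ U x + v` with `U` in `GL_n(Z)` and `v` in `Z^n`. -/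
def UnimodularlyEquivalent (K L : Set (EuclideanSpace ℝ (Fin n))) : Prop :=
  ∃ (U : Matrix.GeneralLinearGroup (Fin n) ℤ) (v : Fin n → ℤ),
    affineMap (U : Matrix (Fin n) (Fin n) ℤ) v '' K = L

lemma mem_unimodularSimplex (x : EuclideanSpace ℝ (Fin n)) :
    x ∈ unimodularSimplex n ↔ (∀ i, 0 ≤ x i) ∧ ∑ i, x i ≤ 1 := by
  constructor
  · have hconv : Convex ℝ {x : EuclideanSpace ℝ (Fin n) | (∀ i, 0 ≤ x i) ∧ ∑ i, x i ≤ 1} := by
      intro x hx y hy a b ha hb hab
      refine ⟨fun i => ?_, ?_⟩
      · have h1 := mul_nonneg ha (hx.1 i)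
        have h2 := mul_nonneg hb (hy.1 i)
        simpa using add_nonneg h1 h2
      · have h1 := mul_le_mul_of_nonneg_left hx.2 ha
        have h2 := mul_le_mul_of_nonneg_left hy.2 hb
        have h3 : ∑ i, (a • x + b • y) i = a * ∑ i, x i + b * ∑ i, y i := by
          simp [Finset.sum_add_distrib, Finset.mul_sum]
        rw [h3]
        linarith
    intro hx
    refine convexHull_min ?_ hconv hx
    intro y hy
    rcases mem_insert_iff.1 hy with rfl | ⟨i, rfl⟩
    · simp
    · refine ⟨fun j => ?_, ?_⟩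
      · by_cases hij : j = i
        · simp [hij]
        · simp [hij]
      · simp
  · rintro ⟨h1, h2⟩
    have h0 : (0 : EuclideanSpace ℝ (Fin n)) ∈ unimodularSimplex n :=
      subset_convexHull ℝ _ (mem_insert _ _)
    have hi : ∀ i : Fin n, EuclideanSpace.single i (1 : ℝ) ∈ unimodularSimplex n :=
      fun i => subset_convexHull ℝ _ (mem_insert_of_mem _ ⟨i, rfl⟩)
    have hc : Convex ℝ (unimodularSimplex n) := convex_convexHull ℝ _
    have hx : x = ∑ o : Option (Fin n),
        (o.elim (1 - ∑ i, x i) (fun i => x i)) •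
          (o.elim (0 : EuclideanSpace ℝ (Fin n)) (fun i => EuclideanSpace.single i (1 : ℝ))) := by
      rw [Fintype.sum_option]
      ext j
      simp only [Option.elim_none, Option.elim_some, smul_zero, zero_add, WithLp.ofLp_sum,
        WithLp.ofLp_smul, Finset.sum_apply, Pi.smul_apply, smul_eq_mul, PiLp.single_apply]
      rw [Finset.sum_eq_single j]
      · simp
      · intro i _ hij
        rw [if_neg (Ne.symm hij), mul_zero]
      · intro h
        exact absurd (Finset.mem_univ j) h
    rw [hx]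
    refine hc.sum_mem ?_ ?_ ?_
    · rintro (_ | i) _
      · simpa using h2
      · exact h1 i
    · rw [Fintype.sum_option]
      simp
    · rintro (_ | i) _
      · exact h0
      · exact hi i

lemma mem_smul_unimodularSimplex {c : ℝ} (hc : 0 < c) (x : EuclideanSpace ℝ (Fin n)) :
    x ∈ c • unimodularSimplex n ↔ (∀ i, 0 ≤ x i) ∧ ∑ i, x i ≤ c := by
  rw [mem_smul_set_iff_inv_smul_mem₀ hc.ne', mem_unimodularSimplex]
  have h1 : ∀ i, (0 ≤ (c⁻¹ • x) i ↔ 0 ≤ x i) := fun i => by
    simp only [PiLp.smul_apply, smul_eq_mul]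
    exact mul_nonneg_iff_of_pos_left (inv_pos.2 hc)
  have h2 : ∑ i, (c⁻¹ • x) i = (∑ i, x i) / c := by
    simp [Finset.mul_sum, div_eq_inv_mul]
  simp only [h1, h2, div_le_one hc]

/-- **Q1, answered affirmatively.** For every `n ≥ 1` and every convex body `K` of `R^n` whose only
interior lattice point is `0`:
`R(K)` is well defined (it is `1` if the barycenter `b` is `0`; otherwise the ray from `b` through
`0` has exactly one boundary point `x`, and `0 < R(K) = ‖x‖ / ‖x - b‖ < 1`);
`vol K ≤ (n+1)^n / (n! R(K)^n)`; and equality holds if and only if `K` is unimodularly equivalent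
to `(n+1) conv(0, e_1, ..., e_n)`. The case `b = 0` is Ehrhart's volume conjecture. -/
theorem result (n : ℕ) (hn : 1 ≤ n) (K : Set (EuclideanSpace ℝ (Fin n))) (hK : IsConvexBody K)
    (h0 : OnlyInteriorLatticePoint K) :
    ((barycenter K = 0 → ratio K = 1) ∧
      (barycenter K ≠ 0 →
        ∃ x, IsExitPoint K x ∧ (∀ y, IsExitPoint K y → y = x) ∧
          ratio K = ‖x‖ / ‖x - barycenter K‖ ∧ 0 < ratio K ∧ ratio K < 1)) ∧
    volume.real K ≤ ((n : ℝ) + 1) ^ n / ((n.factorial : ℝ) * ratio K ^ n) ∧
    (volume.real K = ((n : ℝ) + 1) ^ n / ((n.factorial : ℝ) * ratio K ^ n) ↔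
      UnimodularlyEquivalent K (((n : ℝ) + 1) • unimodularSimplex n)) := by
  obtain ⟨hKc, hconv, -⟩ := hK
  have h0i : (0 : EuclideanSpace ℝ (Fin n)) ∈ interior K := ((h0 0).2 rfl).1
  have hlat : ∀ x ∈ interior K, IsLatticePoint x → x = 0 := fun x hx hl => (h0 x).1 ⟨hx, hl⟩
  -- transfer to functions
  set e : EuclideanSpace ℝ (Fin n) ≃L[ℝ] (Fin n → ℝ) := EuclideanSpace.equiv (Fin n) ℝ with he
  have hee : (e : EuclideanSpace ℝ (Fin n) → (Fin n → ℝ)) = WithLp.ofLp := rfl
  have hK' : IsCompact (e '' K) := hKc.image e.continuous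
  have hconv' : Convex ℝ (e '' K) := hconv.linear_image e.toLinearMap
  have hint : interior (e '' K) = e '' interior K := (e.toHomeomorph.image_interior K).symm
  have hfr : frontier (e '' K) = e '' frontier K := (e.toHomeomorph.image_frontier K).symm
  have h0' : (0 : Fin n → ℝ) ∈ interior (e '' K) := by
    rw [hint]
    exact ⟨0, h0i, map_zero e⟩
  have hlat' : ∀ x ∈ interior (e '' K), (∀ i, ∃ z : ℤ, x i = (z : ℝ)) → x = 0 := by
    intro x hx hl
    rw [hint] at hx
    obtain ⟨y, hy, rfl⟩ := hx
    rw [hlat y hy hl, map_zero]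
  have hvol : volume.real (e '' K) = volume.real K := by
    rw [Measure.real, Measure.real, hee, Lib.H61I.Ehr.volume_image hKc.measurableSet]
  have hbar : e (barycenter K) = (volume.real (e '' K))⁻¹ • ∫ x in e '' K, x := by
    rw [hvol, hee, Lib.H61I.Ehr.integral_image hKc, barycenter]
    rfl
  have hbi' := Lib.H38.Ehr.centroid_mem_interior hK' hconv' h0' hbar
  have hbi : barycenter K ∈ interior K := by
    rw [hint] at hbi'
    obtain ⟨y, hy, hye⟩ := hbi'
    rwa [← e.injective hye]
  -- the ratio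
  have hR0 : barycenter K = 0 → ratio K = 1 := by
    intro hb
    rw [ratio, dif_neg]
    rintro ⟨h, -⟩
    exact h hb
  have hchoose : ∀ hb : barycenter K ≠ 0, ∃ x, IsExitPoint K x ∧ (∀ y, IsExitPoint K y → y = x) ∧
        ratio K = ‖x‖ / ‖x - barycenter K‖ := by
    intro hb
    obtain ⟨x, hx, hu⟩ := Lib.H61I.Ehr.exists_unique_exit hKc hconv hbi hb
    have hh : barycenter K ≠ 0 ∧ ∃ x, IsExitPoint K x := ⟨hb, x, hx⟩
    have hx' : hh.2.choose = x := hu _ hh.2.choose_spec
    refine ⟨x, hx, hu, ?_⟩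
    rw [ratio, dif_pos hh, hx']
  have hquot : ∀ (t : ℝ) (b : EuclideanSpace ℝ (Fin n)), b ≠ 0 → 0 < t →
      ‖b - t • b‖ / ‖b - t • b - b‖ = |1 - t| / t := by
    intro t b hb ht
    have h1 : b - t • b = (1 - t) • b := by rw [sub_smul, one_smul]
    have h2 : b - t • b - b = (-t) • b := by rw [neg_smul]; abel
    rw [h2, h1, norm_smul, norm_smul, Real.norm_eq_abs, Real.norm_eq_abs, abs_neg,
      abs_of_pos ht]
    have := norm_pos_iff.2 hb
    field_simp
  have hmain := Lib.Ehrhart.main hn hK' hconv' h0' hlat' hbar (R := ratio K)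
    (fun hb => hR0 (e.map_eq_zero_iff.1 hb))
    (by
      intro t ht hb hf
      have hb' : barycenter K ≠ 0 := fun h => hb (by rw [h, map_zero])
      obtain ⟨x, hx, hu, hxr⟩ := hchoose hb'
      have hf' : barycenter K - t • barycenter K ∈ frontier K := by
        rw [hfr] at hf
        obtain ⟨y, hy, hye⟩ := hf
        have : y = barycenter K - t • barycenter K := e.injective (by rw [hye, map_sub, map_smul])
        rwa [← this]
      have ht1 := Lib.H61I.Ehr.one_lt_of_exit hconv hbi h0i ht hf'
      have ht0 : 0 < t := by linarith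
      have hxe : barycenter K - t • barycenter K = x := hu _ ⟨hf', t, ht, rfl⟩
      rw [hxr, ← hxe, hquot t _ hb' ht0, dist_zero_right, dist_eq_norm]
      have h1 : e (barycenter K) - t • e (barycenter K) = (1 - t) • e (barycenter K) := by
        rw [sub_smul, one_smul]
      have h2 : e (barycenter K) - t • e (barycenter K) - e (barycenter K) =
          (-t) • e (barycenter K) := by rw [neg_smul]; abel
      rw [h2, h1, norm_smul, norm_smul, Real.norm_eq_abs, Real.norm_eq_abs, abs_neg,
        abs_of_pos ht0]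
      have := norm_pos_iff.2 hb
      field_simp)
  rw [hvol] at hmain
  have hequiv : UnimodularlyEquivalent K (((n : ℝ) + 1) • unimodularSimplex n) ↔
      ∃ A : Matrix (Fin n) (Fin n) ℤ, ∃ v : Fin n → ℤ, IsUnit A.det ∧
          (fun x : Fin n → ℝ => fun i => ∑ j, (A i j : ℝ) * x j + (v i : ℝ)) '' (e '' K) =
            {y : Fin n → ℝ | (∀ i, 0 ≤ y i) ∧ ∑ i, y i ≤ (n : ℝ) + 1} := by
    have hset : e '' (((n : ℝ) + 1) • unimodularSimplex n) =
        {y : Fin n → ℝ | (∀ i, 0 ≤ y i) ∧ ∑ i, y i ≤ (n : ℝ) + 1} := by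
      ext y
      constructor
      · rintro ⟨x, hx, rfl⟩
        exact (mem_smul_unimodularSimplex (by positivity) x).1 hx
      · intro hy
        exact ⟨e.symm y, (mem_smul_unimodularSimplex (by positivity) _).2 hy,
          e.apply_symm_apply y⟩
    have himg : ∀ (A : Matrix (Fin n) (Fin n) ℤ) (v : Fin n → ℤ),
        (fun x : Fin n → ℝ => fun i => ∑ j, (A i j : ℝ) * x j + (v i : ℝ)) '' (e '' K) =
          e '' (affineMap A v '' K) := by
      intro A v
      rw [image_image, image_image]
      rfl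
    constructor
    · rintro ⟨U, v, hUv⟩
      refine ⟨U, v, ?_, ?_⟩
      · exact (Matrix.isUnit_iff_isUnit_det _).1 U.isUnit
      · rw [himg, hUv, hset]
    · rintro ⟨A, v, hA, hAv⟩
      refine ⟨((Matrix.isUnit_iff_isUnit_det _).2 hA).unit, v, ?_⟩
      rw [himg, ← hset] at hAv
      exact (image_injective.2 e.injective) hAv
  rw [← hequiv] at hmain
  refine ⟨⟨hR0, ?_⟩, hmain.1, hmain.2⟩
  intro hb
  obtain ⟨x, hx, hu, hxr⟩ := hchoose hb
  refine ⟨x, hx, hu, hxr, ?_⟩
  obtain ⟨hf, t, ht, rfl⟩ := hx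
  have ht1 := Lib.H61I.Ehr.one_lt_of_exit hconv hbi h0i ht hf
  have ht0 : 0 < t := by linarith
  rw [hxr, hquot t _ hb ht0, abs_of_neg (by linarith)]
  constructor
  · apply div_pos _ ht0
    linarith
  · rw [div_lt_one ht0]
    linarith

end Pool.Agent.Results.MP_53c0b7_co.BarycentricVolumeBound
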